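import Pool.Agent.R357.MC.Fin
import Pool.Agent.R357.MC.C27
import Pool.Agent.R357.MC.C35

set_option autoImplicit false

open Pool.Agent.R357.MC

namespace Pool.Agent.Results.MP_b0ed8d_nt.NonMCValues

/-- The numbers `g(27) = 2289` and `g(35) = 3853` of lattice points in the closed discs of radius `27` and
`35` about the origin are non-MC: there is no largest circle enclosing exactly that many lattice points. -/
theorem result : (g 27 = 2289 ∧ ¬ IsMC (g 27)) ∧ (g 35 = 3853 ∧ ¬ IsMC (g 35)) := by
  have h27 : g 27 = 2289 := by rw [g_grid]; decide +kernel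
  have h35 : g 35 = 3853 := by rw [g_grid]; decide +kernel
  refine ⟨⟨h27, ?_⟩, ⟨h35, ?_⟩⟩
  · rw [h27]
    exact cert27.not_mc' (by decide) 3 rfl (by decide) (by decide) (1, 1) 51 (by decide) (by decide +kernel)
  · rw [h35]
    exact cert35.not_mc' (by decide) 1 rfl (by decide) (by decide) (1, 2) 155 (by decide) (by decide +kernel)

end Pool.Agent.Results.MP_b0ed8d_nt.NonMCValues
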